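import Mathlib
import Pool.Agent.W609.UniX

set_option autoImplicit false

/-!
# The uniform Harbourne-Hirschowitz conjecture for every multiplicity, up to an exponentially small
relative error

For all `n ≥ 2 ^ 1000`, all `m` and all `d > 0` with `d ≤ (1 - n exp (-n ^ (1 / 10))) √n m` or
`d ≥ (1 + n exp (-n ^ (1 / 10))) √n m + √n`, the space of forms of degree `d` vanishing to order `m`
at `n` general points of the complex projective plane has the expected dimension. The general points
are the same for all degrees `d`.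
-/

namespace Pool.Agent.Results.MP_d03834_ag.UniformExponentialPrecision

theorem result (n : ℕ) (hn : 2 ^ 1000 ≤ n) (m : ℕ) :
    ∃ F : MvPolynomial (Fin n × Fin 2) ℂ, F ≠ 0 ∧
      ∀ P : Fin n → Fin 2 → ℂ,
        MvPolynomial.eval (fun ij : Fin n × Fin 2 => P ij.1 ij.2) F ≠ 0 →
        ∀ d : ℕ, 0 < d →
          ((d : ℝ) ≤ (1 - n * Real.exp (-((n : ℝ) ^ (1 / 10 : ℝ)))) * (Real.sqrt n * m) ∨
            (1 + n * Real.exp (-((n : ℝ) ^ (1 / 10 : ℝ)))) * (Real.sqrt n * m) + Real.sqrt n ≤ d) →
          Module.finrank ℂ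
            ↥(MvPolynomial.homogeneousSubmodule (Fin 3) ℂ d ⊓
              Submodule.restrictScalars ℂ
                (⨅ i : Fin n,
                  (Ideal.span
                    ({MvPolynomial.X 0 - MvPolynomial.C (P i 0) * MvPolynomial.X 2,
                      MvPolynomial.X 1 - MvPolynomial.C (P i 1) * MvPolynomial.X 2} :
                      Set (MvPolynomial (Fin 3) ℂ))) ^ m))
          = Nat.choose (d + 2) 2 - n * Nat.choose (m + 1) 2 := by
  have hnR : (2 : ℝ) ^ 1000 ≤ n := by
    have h1 : ((2 ^ 1000 : ℕ) : ℝ) ≤ (n : ℝ) := Nat.cast_le.2 hn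
    rwa [Nat.cast_pow, Nat.cast_ofNat] at h1
  clear hn
  obtain ⟨F, hF, hF'⟩ := W609.U.wedge_expX ℂ hnR (fun _ => m)
  have h0 : (0 : ℝ) < n := lt_of_lt_of_le (by positivity) hnR
  clear hnR
  refine ⟨F.map (algebraMap ℚ ℂ), H932R3.map_ne_zero_of hF, fun P hP d hd0 hd => ?_⟩
  rw [MvPolynomial.eval_map] at hP
  obtain ⟨x, hx⟩ : ∃ x, x = n * Real.exp (-((n : ℝ) ^ (1 / 10 : ℝ))) := ⟨_, rfl⟩
  rw [← hx] at hd hF'
  have h2 : (0 : ℝ) < Real.sqrt n := Real.sqrt_pos.2 h0
  have h3 : Real.sqrt n * Real.sqrt n = n := Real.mul_self_sqrt h0.le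
  have h1 := hF' P hP d hd0 (by
    rcases hd with hd | hd
    · left
      rw [Finset.sum_const, Finset.card_univ, Fintype.card_fin, nsmul_eq_mul]
      calc Real.sqrt n * d ≤ Real.sqrt n * ((1 - x) * (Real.sqrt n * m)) :=
            mul_le_mul_of_nonneg_left hd h2.le
        _ = (1 - x) * (n * m) := by
            linear_combination ((1 - x) * m) * h3
    · right
      intro a
      exact hd)
  unfold H932R3.ExpDim at h1
  rw [Finset.sum_const, Finset.card_univ, Fintype.card_fin, smul_eq_mul] at h1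
  exact h1

end Pool.Agent.Results.MP_d03834_ag.UniformExponentialPrecision
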